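import Pool.Agent.H602R3.BanachCore

set_option autoImplicit false

/-!
The norm `|b g| + 1` on an infinite virtually cyclic group, `b` a cocycle.
-/

namespace Pool.Agent.Y138.Ban

open Filter Topology Pool.Agent.H602R3.BanachCore

variable {G : Type*} [Group G]

section

variable (t : G) (hinf : ¬ IsOfFinOrder t) (hnorm : (Subgroup.zpowers t).Normal)

include hinf in
theorem zpow_inj {a b : ℤ} (h : t ^ a = t ^ b) : a = b :=
  injective_zpow_iff_not_isOfFinOrder.2 hinf h

include hnorm in
theorem exists_sign (g : G) : ∃ k : ℤ, t ^ k = g * t * g⁻¹ := by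
  have h := hnorm.conj_mem t (Subgroup.mem_zpowers t) g
  exact Subgroup.mem_zpowers_iff.1 h

/-- the sign of `g`: `g t g⁻¹ = t ^ sgn g` -/
noncomputable def sgn (g : G) : ℤ := (exists_sign t hnorm g).choose

theorem sgn_spec (g : G) : t ^ (sgn t hnorm g) = g * t * g⁻¹ :=
  (exists_sign t hnorm g).choose_spec

include hinf in
theorem sgn_mul (g h : G) : sgn t hnorm (g * h) = sgn t hnorm g * sgn t hnorm h := by
  apply zpow_inj t hinf
  rw [sgn_spec, zpow_mul, sgn_spec t hnorm g, conj_zpow, sgn_spec t hnorm h]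
  group

include hinf in
theorem sgn_one : sgn t hnorm 1 = 1 := by
  apply zpow_inj t hinf
  rw [sgn_spec]
  simp

include hinf in
theorem sgn_sq (g : G) : sgn t hnorm g * sgn t hnorm g = 1 := by
  have h1 : sgn t hnorm g * sgn t hnorm g⁻¹ = 1 := by
    rw [← sgn_mul t hinf, mul_inv_cancel, sgn_one t hinf]
  have h2 : IsUnit (sgn t hnorm g) := IsUnit.of_mul_eq_one _ h1
  rcases Int.isUnit_iff.1 h2 with h | h <;> rw [h] <;> norm_num

include hinf in
theorem sgn_eq (g : G) : sgn t hnorm g = 1 ∨ sgn t hnorm g = -1 := by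
  have h1 := sgn_sq t hinf hnorm g
  exact mul_self_eq_one_iff.1 h1

include hinf in
theorem sgn_zpow (n : ℤ) : sgn t hnorm (t ^ n) = 1 := by
  apply zpow_inj t hinf
  rw [sgn_spec]
  group

/-- the chosen representative of a coset -/
noncomputable def rep (x : G ⧸ Subgroup.zpowers t) : G := Quotient.out x

theorem exists_shift (g : G) (x : G ⧸ Subgroup.zpowers t) :
    ∃ k : ℤ, t ^ k = (rep t (g • x))⁻¹ * (g * rep t x) := by
  have h : (QuotientGroup.mk (rep t (g • x)) : G ⧸ Subgroup.zpowers t)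
      = QuotientGroup.mk (g * rep t x) := by
    have h1 : (QuotientGroup.mk (rep t (g • x)) : G ⧸ Subgroup.zpowers t) = g • x :=
      Quotient.out_eq' _
    have h2 : (QuotientGroup.mk (rep t x) : G ⧸ Subgroup.zpowers t) = x := Quotient.out_eq' _
    rw [h1]
    conv_lhs => rw [← h2]
    rfl
  exact Subgroup.mem_zpowers_iff.1 (QuotientGroup.eq.1 h)

/-- the shift `a(g,x)`: `g s(x) = s(g x) t ^ a(g,x)` -/
noncomputable def shift (g : G) (x : G ⧸ Subgroup.zpowers t) : ℤ := (exists_shift t g x).choose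

theorem shift_spec (g : G) (x : G ⧸ Subgroup.zpowers t) :
    rep t (g • x) * t ^ (shift t g x) = g * rep t x := by
  have := (exists_shift t g x).choose_spec
  unfold shift
  rw [this]
  group

include hinf in
theorem shift_mul (g h : G) (x : G ⧸ Subgroup.zpowers t) :
    shift t (g * h) x = shift t g (h • x) + shift t h x := by
  apply zpow_inj t hinf
  have h1 := shift_spec t (g * h) x
  have h2 := shift_spec t g (h • x)
  have h3 := shift_spec t h x
  rw [mul_smul] at h1
  apply mul_left_cancel (a := rep t (g • h • x))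
  rw [h1, zpow_add, ← mul_assoc, h2, mul_assoc, mul_assoc, h3]

include hinf in
theorem sgn_rep (g : G) (x : G ⧸ Subgroup.zpowers t) :
    sgn t hnorm (rep t (g • x)) = sgn t hnorm g * sgn t hnorm (rep t x) := by
  rw [← sgn_mul t hinf, ← shift_spec t g x, sgn_mul t hinf, sgn_zpow t hinf, mul_one]

variable [Fintype (G ⧸ Subgroup.zpowers t)]

/-- the cocycle -/
noncomputable def coc (g : G) : ℤ :=
  ∑ x : G ⧸ Subgroup.zpowers t, sgn t hnorm (rep t (g • x)) * shift t g x

include hinf in
theorem coc_mul (g h : G) :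
    coc t hnorm (g * h) = coc t hnorm g + sgn t hnorm g * coc t hnorm h := by
  unfold coc
  have h1 : ∀ x : G ⧸ Subgroup.zpowers t,
      sgn t hnorm (rep t ((g * h) • x)) * shift t (g * h) x
        = sgn t hnorm (rep t (g • (h • x))) * shift t g (h • x)
          + sgn t hnorm g * (sgn t hnorm (rep t (h • x)) * shift t h x) := by
    intro x
    rw [shift_mul t hinf, mul_smul, mul_add, ← mul_assoc (sgn t hnorm g), ← sgn_rep t hinf]
  rw [Finset.sum_congr rfl fun x _ => h1 x, Finset.sum_add_distrib, ← Finset.mul_sum]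
  congr 1
  exact Equiv.sum_comp (MulAction.toPerm h : Equiv.Perm (G ⧸ Subgroup.zpowers t))
    (fun x => sgn t hnorm (rep t (g • x)) * shift t g x)

include hinf in
theorem coc_zpow (n : ℤ) :
    coc t hnorm (t ^ n) = n * Fintype.card (G ⧸ Subgroup.zpowers t) := by
  unfold coc
  have h1 : ∀ x : G ⧸ Subgroup.zpowers t,
      sgn t hnorm (rep t (t ^ n • x)) * shift t (t ^ n) x = n := by
    intro x
    have hx : t ^ n • x = x := by
      obtain ⟨g, rfl⟩ := QuotientGroup.mk_surjective x
      show (QuotientGroup.mk (t ^ n * g) : G ⧸ Subgroup.zpowers t) = QuotientGroup.mk g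
      rw [QuotientGroup.eq]
      have h2 := hnorm.conj_mem (t ^ (-n)) (Subgroup.zpow_mem_zpowers t _) g⁻¹
      have e : (t ^ n * g)⁻¹ * g = g⁻¹ * t ^ (-n) * g⁻¹⁻¹ := by group
      rw [e]; exact h2
    have h2 := shift_spec t (t ^ n) x
    rw [hx] at h2 ⊢
    -- t ^ n = s t^a s⁻¹ = t ^ (sgn s * a)
    apply zpow_inj t hinf
    rw [zpow_mul, sgn_spec, conj_zpow, h2]
    group
  rw [Finset.sum_congr rfl fun x _ => h1 x]
  simp [mul_comm]

include hinf in
theorem coc_inv (g : G) : coc t hnorm g⁻¹ = - (sgn t hnorm g * coc t hnorm g) := by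
  have h1 := coc_mul t hinf hnorm g g⁻¹
  have h0 : coc t hnorm 1 = 0 := by
    have := coc_zpow t hinf hnorm 0
    simpa using this
  rw [mul_inv_cancel, h0] at h1
  have h2 := sgn_sq t hinf hnorm g
  have h3 : sgn t hnorm g * (coc t hnorm g + sgn t hnorm g * coc t hnorm g⁻¹) = 0 := by
    rw [← h1, mul_zero]
  have h4 : sgn t hnorm g * (coc t hnorm g + sgn t hnorm g * coc t hnorm g⁻¹)
      = sgn t hnorm g * coc t hnorm g + (sgn t hnorm g * sgn t hnorm g) * coc t hnorm g⁻¹ := by
    ring
  rw [h2] at h4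
  linarith

/-- every element is a representative times a power of `t` -/
theorem exists_rep_mul (g : G) :
    ∃ n : ℤ, g = rep t (QuotientGroup.mk g) * t ^ n := by
  have h : (QuotientGroup.mk (rep t (QuotientGroup.mk g)) : G ⧸ Subgroup.zpowers t)
      = QuotientGroup.mk g := Quotient.out_eq' _
  obtain ⟨k, hk⟩ := Subgroup.mem_zpowers_iff.1 (QuotientGroup.eq.1 h)
  exact ⟨k, by rw [hk]; group⟩

open Classical in
/-- the norm `|b g| + [g ≠ 1]` -/
noncomputable def nrm (g : G) : ℤ := |coc t hnorm g| + (if g = 1 then 0 else 1)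

theorem abs_coc_le_nrm (g : G) : |coc t hnorm g| ≤ nrm t hnorm g := by
  unfold nrm
  split_ifs <;> omega

theorem nrm_le (g : G) : nrm t hnorm g ≤ |coc t hnorm g| + 1 := by
  unfold nrm
  split_ifs <;> omega

include hinf in
/-- bound for the power of `t` -/
theorem abs_pow_le (x : G ⧸ Subgroup.zpowers t) (n : ℤ) :
    |n| ≤ nrm t hnorm (rep t x * t ^ n) + nrm t hnorm (rep t x) := by
  have h1 := coc_mul t hinf hnorm (rep t x) (t ^ n)
  rw [coc_zpow t hinf] at h1
  have h2 : sgn t hnorm (rep t x) * (n * Fintype.card (G ⧸ Subgroup.zpowers t))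
      = coc t hnorm (rep t x * t ^ n) - coc t hnorm (rep t x) := by linarith
  have h3 : |sgn t hnorm (rep t x) * (n * Fintype.card (G ⧸ Subgroup.zpowers t))|
      = |n| * Fintype.card (G ⧸ Subgroup.zpowers t) := by
    rw [abs_mul, abs_mul, Nat.abs_cast]
    rcases sgn_eq t hinf hnorm (rep t x) with h | h <;> rw [h] <;> simp
  have h4 : (1 : ℤ) ≤ Fintype.card (G ⧸ Subgroup.zpowers t) := by
    have : 0 < Fintype.card (G ⧸ Subgroup.zpowers t) := Fintype.card_pos
    exact_mod_cast this
  have h5 : |n| ≤ |n| * Fintype.card (G ⧸ Subgroup.zpowers t) :=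
    le_mul_of_one_le_right (abs_nonneg n) h4
  have h6 := abs_sub (coc t hnorm (rep t x * t ^ n)) (coc t hnorm (rep t x))
  rw [← h2, h3] at h6
  have h7 := abs_coc_le_nrm t hnorm (rep t x * t ^ n)
  have h8 := abs_coc_le_nrm t hnorm (rep t x)
  linarith

include hinf in
theorem isNorm_nrm : IsNorm (nrm t hnorm) := by
  classical
  refine ⟨fun g => ?_, fun g => ?_, fun g h => ?_, fun r => ?_⟩
  · exact (abs_nonneg _).trans (abs_coc_le_nrm t hnorm g)
  · unfold nrm
    have h1 : |coc t hnorm g⁻¹| = |coc t hnorm g| := by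
      rw [coc_inv t hinf, abs_neg, abs_mul]
      rcases sgn_eq t hinf hnorm g with h | h <;> rw [h] <;> simp
    rw [h1]
    simp
  · unfold nrm
    have h1 : |coc t hnorm (g * h)| ≤ |coc t hnorm g| + |coc t hnorm h| := by
      rw [coc_mul t hinf]
      refine (abs_add_le _ _).trans ?_
      rw [abs_mul]
      rcases sgn_eq t hinf hnorm g with h | h <;> rw [h] <;> simp
    have h2 : (if g * h = 1 then (0 : ℤ) else 1)
        ≤ (if g = 1 then 0 else 1) + (if h = 1 then 0 else 1) := by
      by_cases hg : g = 1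
      · subst hg; simp
      · have : (0 : ℤ) ≤ if h = 1 then 0 else 1 := by split_ifs <;> omega
        rw [if_neg hg]
        split_ifs <;> omega
    linarith
  · -- properness
    obtain ⟨M, hM⟩ := (Set.finite_range (fun x : G ⧸ Subgroup.zpowers t =>
      nrm t hnorm (rep t x))).bddAbove
    refine (((Set.finite_univ : (Set.univ : Set (G ⧸ Subgroup.zpowers t)).Finite).prod
      (Set.finite_Icc (-(r + M)) (r + M))).image (fun p => rep t p.1 * t ^ p.2)).subset ?_
    intro g hg
    simp only [Set.mem_ofPred_eq] at hg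
    obtain ⟨n, hn⟩ := exists_rep_mul t g
    have h1 := abs_pow_le t hinf hnorm (QuotientGroup.mk g) n
    rw [← hn] at h1
    have h2 : nrm t hnorm (rep t (QuotientGroup.mk g)) ≤ M := hM ⟨_, rfl⟩
    have h3 : |n| ≤ r + M := by linarith
    refine ⟨(QuotientGroup.mk g, n), ⟨Set.mem_univ _, ?_⟩, hn.symm⟩
    exact abs_le.1 h3

theorem nrm_eq_zero {g : G} (h : nrm t hnorm g = 0) : g = 1 := by
  classical
  unfold nrm at h
  by_contra hg
  rw [if_neg hg] at h
  have := abs_nonneg (coc t hnorm g)
  omega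

include hinf in
theorem nrm_one : nrm t hnorm 1 = 0 := by
  have h0 : coc t hnorm 1 = 0 := by
    have := coc_zpow t hinf hnorm 0
    simpa using this
  unfold nrm
  rw [h0]; simp

include hinf in
/-- far away the difference function is plus or minus the cocycle -/
theorem nrm_diff {u : G} {R : ℤ} (hu : R + 1 < nrm t hnorm u) (hR : 0 ≤ R) :
    ∃ s : ℤ, (s = 1 ∨ s = -1) ∧ ∀ y, nrm t hnorm y ≤ R →
      nrm t hnorm (u * y) - nrm t hnorm u = s * coc t hnorm y := by
  classical
  have hu1 : R < |coc t hnorm u| := by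
    have := nrm_le t hnorm u
    omega
  have hune : u ≠ 1 := by
    rintro rfl
    rw [nrm_one t hinf] at hu
    omega
  have huy : ∀ y, nrm t hnorm y ≤ R → u * y ≠ 1 := by
    intro y hy h
    have h1 : u = y⁻¹ := eq_inv_of_mul_eq_one_left h
    rw [h1, (isNorm_nrm t hinf hnorm).inv] at hu
    omega
  have hmain : ∀ y, nrm t hnorm y ≤ R → nrm t hnorm (u * y) - nrm t hnorm u
      = |coc t hnorm u + sgn t hnorm u * coc t hnorm y| - |coc t hnorm u| := by
    intro y hy
    have h1 : nrm t hnorm (u * y) = |coc t hnorm (u * y)| + 1 := by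
      unfold nrm; rw [if_neg (huy y hy)]
    have h2 : nrm t hnorm u = |coc t hnorm u| + 1 := by
      unfold nrm; rw [if_neg hune]
    rw [h1, h2, coc_mul t hinf]
    ring
  have hy' : ∀ y, nrm t hnorm y ≤ R → |coc t hnorm y| ≤ R := fun y hy =>
    (abs_coc_le_nrm t hnorm y).trans hy
  have hs := sgn_eq t hinf hnorm u
  rcases le_or_gt 0 (coc t hnorm u) with h0 | h0
  · refine ⟨sgn t hnorm u, hs, fun y hy => ?_⟩
    rw [hmain y hy]
    have h3 := abs_le.1 (hy' y hy)
    rw [abs_of_nonneg h0] at hu1 ⊢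
    have h4 : 0 ≤ coc t hnorm u + sgn t hnorm u * coc t hnorm y := by
      rcases hs with h | h <;> rw [h] <;> linarith [h3.1, h3.2]
    rw [abs_of_nonneg h4]
    ring
  · refine ⟨-sgn t hnorm u, ?_, fun y hy => ?_⟩
    · rcases hs with h | h
      · right; rw [h]
      · left; rw [h]; norm_num
    · rw [hmain y hy]
      have h3 := abs_le.1 (hy' y hy)
      rw [abs_of_neg h0] at hu1 ⊢
      have h4 : coc t hnorm u + sgn t hnorm u * coc t hnorm y ≤ 0 := by
        rcases hs with h | h <;> rw [h] <;> linarith [h3.1, h3.2]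
      rw [abs_of_nonpos h4]
      ring

end

end Pool.Agent.Y138.Ban
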