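import Pool.Agent.H602R3.BanachMain

set_option autoImplicit false

/-!
Integer norms on a group (no finite generation assumed) with finitely many limit functions.
-/

namespace Pool.Agent.Y138.Ban

open Filter Topology Pool.Agent.H602R3.BanachCore

variable {G : Type*} [Group G] {N : G → ℤ}

/-- An element of infinite order fixing all limit functions generates a subgroup of finite
index. -/
theorem finiteIndex_zpowers (hN : IsNorm N) (hfin : (LimF N).Finite) {t : G} (ht : t ∈ HH N)
    (hinf : ¬ IsOfFinOrder t) : (Subgroup.zpowers t).FiniteIndex := by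
  classical
  obtain ⟨B, i, hi⟩ := exists_type hN hfin {t} (by simpa using ht)
  -- every coset meets `B`
  have hmeet : ∀ u : G, ∃ n : ℤ, u * t ^ n ∈ B := by
    intro u
    by_contra hcon
    push Not at hcon
    have hconst : ∀ n : ℤ, i (u * t ^ n) = i u := by
      intro n
      induction n using Int.induction_on with
      | zero => simp
      | succ n ih =>
        have h1 := (hi _ (hcon n)).2.2 t (by simp) (by
          have := hcon (n + 1)
          rwa [zpow_add_one, ← mul_assoc] at this)
        rw [zpow_add_one, ← mul_assoc, h1, ih]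
      | pred n ih =>
        have h1 := (hi _ (hcon (-n - 1))).2.2 t (by simp) (by
          have := hcon (-n)
          rw [zpow_sub_one]
          simpa [mul_assoc] using this)
        rw [← ih, ← h1]
        congr 1
        rw [zpow_sub_one]
        simp [mul_assoc]
    have hlin : ∀ n : ℤ, N (u * t ^ n) = N u + n * i u t := by
      intro n
      induction n using Int.induction_on with
      | zero => simp
      | succ n ih =>
        have h1 := (hi _ (hcon n)).2.1 t (by simp)
        rw [hconst] at h1
        rw [zpow_add_one, ← mul_assoc]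
        push_cast
        linarith
      | pred n ih =>
        have h1 := (hi _ (hcon (-n - 1))).2.1 t (by simp)
        rw [hconst] at h1
        have h2 : u * t ^ (-(n : ℤ) - 1) * t = u * t ^ (-(n : ℤ)) := by
          rw [zpow_sub_one]; simp [mul_assoc]
        rw [h2, ih] at h1
        linarith
    have hzero : i u t = 0 := by
      by_contra h0
      have h1 := hN.nonneg (u * t ^ (-(N u + 1) * i u t))
      rw [hlin] at h1
      have h2 : 1 ≤ i u t * i u t := by
        have : 0 < i u t * i u t := mul_self_pos.2 h0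
        omega
      have h3 := hN.nonneg u
      nlinarith
    have hsub : Set.range (fun n : ℤ => u * t ^ n) ⊆ {g | N g ≤ N u} := by
      rintro _ ⟨n, rfl⟩
      simp only [Set.mem_ofPred_eq]
      rw [hlin, hzero]
      simp
    have hinj : Function.Injective (fun n : ℤ => u * t ^ n) := by
      intro a b hab
      exact (injective_zpow_iff_not_isOfFinOrder.2 hinf) (mul_left_cancel hab)
    exact (Set.infinite_range_of_injective hinj) ((hN.proper _).subset hsub)
  have hset : (Set.univ : Set (G ⧸ Subgroup.zpowers t)).Finite := by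
    refine ((B.finite_toSet).image
      (fun g => (QuotientGroup.mk g : G ⧸ Subgroup.zpowers t))).subset ?_
    rintro x -
    obtain ⟨g, rfl⟩ := QuotientGroup.mk_surjective x
    obtain ⟨n, hn⟩ := hmeet g
    refine ⟨g * t ^ n, hn, ?_⟩
    simp only
    rw [QuotientGroup.eq]
    have : (g * t ^ n)⁻¹ * g = t ^ (-n) := by group
    rw [this]
    exact Subgroup.zpow_mem_zpowers t _
  have : Finite (G ⧸ Subgroup.zpowers t) := Set.finite_univ_iff.1 hset
  exact Subgroup.finiteIndex_of_finite_quotient

/-- In a finitely generated subgroup of the group fixing all limit functions only finitely many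
elements are killed by all limit functions. -/
theorem finite_killed (hN : IsNorm N) (hfin : (LimF N).Finite) (S : Finset G)
    (hSH : ∀ s ∈ S, s ∈ HH N) :
    {h | h ∈ Subgroup.closure (S : Set G) ∧ ∀ f ∈ LimF N, f h = 0}.Finite := by
  classical
  let T : Finset G := S ∪ S.image (fun s => s⁻¹)
  have hT : ∀ s ∈ T, s ∈ HH N := by
    intro s hs
    simp only [T, Finset.mem_union, Finset.mem_image] at hs
    rcases hs with hs | ⟨s', hs', rfl⟩
    · exact hSH s hs
    · exact inv_mem (hSH s' hs')
  have hcl : ∀ u ∈ Subgroup.closure (S : Set G), u ∈ HH N := fun u hu =>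
    (Subgroup.closure_le (HH N)).2 (fun s hs => hSH s hs) hu
  obtain ⟨B, i, hi⟩ := exists_type hN hfin T hT
  let B' : Finset G := insert 1 ((B ×ˢ T).image (fun p => p.1 * p.2))
  let C : Finset ℤ := B'.image (fun b => N b - i b b)
  have step : ∀ u ∈ HH N, ∀ s ∈ T, (u ∉ B → N u - i u u ∈ C) →
      (u * s ∉ B → N (u * s) - i (u * s) (u * s) ∈ C) := by
    intro u hu s hs ih hus
    by_cases huB : u ∈ B
    · refine Finset.mem_image.2 ⟨u * s, ?_, rfl⟩
      refine Finset.mem_insert_of_mem (Finset.mem_image.2 ⟨(u, s), ?_, rfl⟩)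
      simp [huB, hs]
    · have h1 := ih huB
      obtain ⟨h2, h3, h4⟩ := hi u huB
      rw [h4 s hs hus, HH_spec h2 hu]
      have := h3 s hs
      have e : N (u * s) - (i u u + i u s) = N u - i u u := by linarith
      rw [e]
      exact h1
  have main : ∀ u ∈ Subgroup.closure (S : Set G), u ∉ B → N u - i u u ∈ C := by
    intro u hu
    induction hu using Subgroup.closure_induction_right with
    | one =>
      intro _
      exact Finset.mem_image.2 ⟨1, Finset.mem_insert_self _ _, rfl⟩
    | mul_right x hx y hy ih =>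
      exact step x (hcl x hx) y (by simp [T]; left; exact hy) ih
    | mul_inv_cancel x hx y hy ih =>
      exact step x (hcl x hx) y⁻¹ (by simp [T]; right; exact hy) ih
  obtain ⟨M, hM⟩ := C.bddAbove
  refine ((B.finite_toSet).union (hN.proper M)).subset ?_
  rintro h ⟨hh, h0⟩
  by_cases hB : h ∈ B
  · exact Or.inl hB
  · right
    have h1 := main h hh hB
    rw [h0 _ (hi h hB).1, sub_zero] at h1
    exact hM h1

theorem finiteIndex_HH (hfin : (LimF N).Finite) : (HH N).FiniteIndex := by
  have : Finite (LimF N) := hfin.to_subtype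
  have : Finite (Equiv.Perm (LimF N)) := inferInstance
  exact Subgroup.finiteIndex_ker (permHom N)

/-- If every element of `HH N` has finite order, all limit functions vanish on `HH N`. -/
theorem vanish_of_torsion (htor : ∀ t ∈ HH N, IsOfFinOrder t) {f : G → ℤ} (hf : f ∈ LimF N)
    {h : G} (hh : h ∈ HH N) : f h = 0 := by
  obtain ⟨n, hn, hn1⟩ := isOfFinOrder_iff_pow_eq_one.1 (htor h hh)
  have h1 := HH_zpow hf hh n
  rw [zpow_natCast, hn1, HH_one hf] at h1
  have h2 : (n : ℤ) ≠ 0 := by exact_mod_cast hn.ne'
  rcases mul_eq_zero.1 h1.symm with h | h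
  · exact absurd h h2
  · exact h

/-- If every element of `HH N` has finite order, every finitely generated subgroup of `G` is
finite. -/
theorem locallyFinite_of_torsion (hN : IsNorm N) (hfin : (LimF N).Finite)
    (htor : ∀ t ∈ HH N, IsOfFinOrder t) (S : Finset G) :
    ((Subgroup.closure (S : Set G) : Subgroup G) : Set G).Finite := by
  classical
  have hHfi := finiteIndex_HH hfin
  let K : Subgroup G := Subgroup.closure (S : Set G)
  have hKfg : Group.FG K := by
    rw [Group.fg_iff_subgroup_fg]
    exact ⟨S, rfl⟩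
  let L : Subgroup K := (HH N).subgroupOf K
  have hLfi : L.FiniteIndex := inferInstance
  have hLfg : Group.FG L := Subgroup.fg_of_index_ne_zero L
  have hLfg' : L.FG := by rwa [← Group.fg_iff_subgroup_fg]
  obtain ⟨S', hS'⟩ := hLfg'
  have hfinL := finite_killed hN hfin (S'.image (fun x : K => (x : G))) (by
    intro s hs
    obtain ⟨x, hx, rfl⟩ := Finset.mem_image.1 hs
    have : x ∈ L := hS' ▸ Subgroup.subset_closure hx
    exact this)
  have hLfin : (L : Set K).Finite := by
    refine Set.Finite.of_finite_image (f := fun x : K => (x : G)) (hfinL.subset ?_)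
      (Subtype.val_injective.injOn)
    rintro _ ⟨x, hx, rfl⟩
    have hxH : (x : G) ∈ HH N := hx
    refine ⟨?_, fun f hf => vanish_of_torsion htor hf hxH⟩
    have hx' : x ∈ Subgroup.closure (S' : Set K) := by rw [hS']; exact hx
    have h1 : (x : G) ∈ (Subgroup.closure (S' : Set K)).map K.subtype := ⟨x, hx', rfl⟩
    rw [MonoidHom.map_closure] at h1
    simpa using h1
  have hLf : Finite L := hLfin.to_subtype
  have hq : Finite (K ⧸ L) := Subgroup.finite_quotient_of_finiteIndex
  have : Finite K := Finite.of_equiv _ (Subgroup.groupEquivQuotientProdSubgroup (s := L)).symm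
  exact Set.toFinite _

/-- If every element of `HH N` has finite order, every limit function is bounded. -/
theorem bounded_of_torsion (hfin : (LimF N).Finite)
    (htor : ∀ t ∈ HH N, IsOfFinOrder t) {f : G → ℤ} (hf : f ∈ LimF N) :
    ∃ M : ℤ, ∀ y, |f y| ≤ M := by
  classical
  have hHfi := finiteIndex_HH hfin
  have hq : Finite (G ⧸ HH N) := Subgroup.finite_quotient_of_finiteIndex
  -- `f y` only depends on the left coset of `y⁻¹`
  have hdep : ∀ y : G, f y = f (Quotient.out (QuotientGroup.mk y⁻¹ : G ⧸ HH N))⁻¹ := by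
    intro y
    have h1 : (Quotient.out (QuotientGroup.mk y⁻¹ : G ⧸ HH N))⁻¹ * y⁻¹ ∈ HH N := by
      rw [← QuotientGroup.eq]
      exact Quotient.out_eq' _
    have h2 := HH_spec hf h1 y
    rw [vanish_of_torsion htor hf h1] at h2
    simpa using h2.symm
  have hr : (Set.range f).Finite := by
    refine (Set.finite_range (fun q : G ⧸ HH N => f (Quotient.out q)⁻¹)).subset ?_
    rintro _ ⟨y, rfl⟩
    exact ⟨_, (hdep y).symm⟩
  obtain ⟨M, hM⟩ := (hr.image (fun z => |z|)).bddAbove
  exact ⟨M, fun y => hM ⟨f y, ⟨y, rfl⟩, rfl⟩⟩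

/-- The dichotomy. -/
theorem dichotomy (hN : IsNorm N) (hfin : (LimF N).Finite) :
    (∃ C : Subgroup G, IsCyclic C ∧ C.FiniteIndex) ∨
      ((∀ S : Finset G, ((Subgroup.closure (S : Set G) : Subgroup G) : Set G).Finite) ∧
        ∀ f ∈ LimF N, ∃ M : ℤ, ∀ y, |f y| ≤ M) := by
  by_cases h : ∃ t ∈ HH N, ¬ IsOfFinOrder t
  · obtain ⟨t, ht, hinf⟩ := h
    exact Or.inl ⟨Subgroup.zpowers t, inferInstance, finiteIndex_zpowers hN hfin ht hinf⟩
  · push Not at h
    exact Or.inr ⟨locallyFinite_of_torsion hN hfin h, fun f hf => bounded_of_torsion hfin h hf⟩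

/-- With at most one limit function every element has finite order. -/
theorem torsion_of_subsingleton (hN : IsNorm N) (hsub : (LimF N).Subsingleton) (t : G) :
    IsOfFinOrder t := by
  classical
  by_contra hinf
  have hinj : Function.Injective (fun n : ℤ => t ^ n) :=
    injective_zpow_iff_not_isOfFinOrder.2 hinf
  have hGinf : Infinite G := Infinite.of_injective _ hinj
  obtain ⟨f, hf, -⟩ := exists_limit hN Set.univ Set.infinite_univ
  have hB := finite_exceptions hN {t}
  -- exponents in the exceptional set
  have hE : ((fun n : ℤ => t ^ n) ⁻¹' {u : G | ¬ ∃ f ∈ LimF N, ∀ y ∈ ({t} : Finset G),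
      N (u * y) - N u = f y}).Finite := hB.preimage hinj.injOn
  obtain ⟨M, hM⟩ := (hE.image (fun z => |z|)).bddAbove
  have hstep : ∀ n : ℤ, M < |n| → N (t ^ (n + 1)) - N (t ^ n) = f t := by
    intro n hn
    by_cases hmem : ∃ g ∈ LimF N, ∀ y ∈ ({t} : Finset G), N (t ^ n * y) - N (t ^ n) = g y
    · obtain ⟨g, hg, h1⟩ := hmem
      have h2 := h1 t (by simp)
      rw [hsub hg hf] at h2
      rw [zpow_add_one]
      exact h2
    · exact absurd (hM ⟨n, hmem, rfl⟩) (not_le.2 hn)
  let m : ℤ := |M| + 1
  have hm : M < m := by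
    have := le_abs_self M
    simp only [m]; omega
  have hm0 : 0 < m := by
    have := abs_nonneg M
    simp only [m]; omega
  have hpos : ∀ k : ℕ, N (t ^ (m + k)) = N (t ^ m) + k * f t := by
    intro k
    induction k with
    | zero => simp
    | succ k ih =>
      have h1 := hstep (m + k) (by rw [abs_of_pos (by omega)]; omega)
      have e : m + ((k + 1 : ℕ) : ℤ) = m + k + 1 := by push_cast; ring
      rw [e]
      push_cast
      linarith
  have hneg : ∀ k : ℕ, N (t ^ (-m - k)) = N (t ^ (-m)) - k * f t := by
    intro k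
    induction k with
    | zero => simp
    | succ k ih =>
      have h1 := hstep (-m - k - 1) (by rw [abs_of_neg (by omega)]; omega)
      have e : -m - ((k + 1 : ℕ) : ℤ) = -m - k - 1 := by push_cast; ring
      have e2 : -m - (k : ℤ) - 1 + 1 = -m - k := by ring
      rw [e2, ih] at h1
      rw [e]
      push_cast
      linarith
  rcases lt_trichotomy (f t) 0 with h | h | h
  · have h1 := hN.nonneg (t ^ (m + ((N (t ^ m) + 1).toNat : ℤ)))
    rw [hpos] at h1
    have h2 := hN.nonneg (t ^ m)
    have h3 : (((N (t ^ m) + 1).toNat : ℕ) : ℤ) = N (t ^ m) + 1 := Int.toNat_of_nonneg (by omega)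
    rw [h3] at h1
    nlinarith
  · have hsubset : Set.range (fun k : ℕ => t ^ (m + (k : ℤ))) ⊆ {g | N g ≤ N (t ^ m)} := by
      rintro _ ⟨k, rfl⟩
      simp only [Set.mem_ofPred_eq]
      rw [hpos, h]
      simp
    have hinj2 : Function.Injective (fun k : ℕ => t ^ (m + (k : ℤ))) := by
      intro a b hab
      have := hinj hab
      simpa using this
    exact (Set.infinite_range_of_injective hinj2) ((hN.proper _).subset hsubset)
  · have h1 := hN.nonneg (t ^ (-m - ((N (t ^ (-m)) + 1).toNat : ℤ)))
    rw [hneg] at h1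
    have h2 := hN.nonneg (t ^ (-m))
    have h3 : (((N (t ^ (-m)) + 1).toNat : ℕ) : ℤ) = N (t ^ (-m)) + 1 :=
      Int.toNat_of_nonneg (by omega)
    rw [h3] at h1
    nlinarith

end Pool.Agent.Y138.Ban
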