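import Mathlib

set_option autoImplicit false

/-!
Definitions: proper left invariant integer valued metrics, the metric-functional boundary,
Banach metrics, virtually cyclic groups and locally finite groups.
-/

namespace Pool.Agent.Y138.Ban

open Filter Topology

/-- `d` is an integer valued, left invariant, proper metric on the group `G`. -/
structure IsProperIntegerMetric {G : Type*} [Group G] (d : G → G → ℝ) : Prop where
  dist_self : ∀ x, d x x = 0
  eq_of_dist_eq_zero : ∀ x y, d x y = 0 → x = y
  symm : ∀ x y, d x y = d y x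
  triangle : ∀ x y z, d x z ≤ d x y + d y z
  integer : ∀ x y, ∃ n : ℤ, d x y = n
  left_invariant : ∀ g x y, d (g * x) (g * y) = d x y
  proper : ∀ (x : G) (r : ℝ), {y | d x y ≤ r}.Finite

/-- The metric-functional `b_x(y) = d(x,y) - d(x,1)`. -/
def b {G : Type*} [Group G] (d : G → G → ℝ) (x y : G) : ℝ := d x y - d x 1

/-- The metric-functional boundary: all pointwise limits of `b_{x_n}` along sequences with
`d(x_n,1) → ∞`. -/
def boundary {G : Type*} [Group G] (d : G → G → ℝ) : Set (G → ℝ) :=
  {f | ∃ x : ℕ → G, Tendsto (fun n => d (x n) 1) atTop atTop ∧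
    ∀ y, Tendsto (fun n => b d (x n) y) atTop (𝓝 (f y))}

/-- All metric-functionals in the boundary are unbounded functions on `G`. -/
def UnboundedFunctionals {G : Type*} [Group G] (d : G → G → ℝ) : Prop :=
  ∀ f ∈ boundary d, ¬ ∃ M : ℝ, ∀ y, |f y| ≤ M

/-- The word metric of a set `S`: least length of a word in `S` with product `x⁻¹ y`. -/
noncomputable def wordDist {G : Type*} [Group G] (S : Set G) (x y : G) : ℕ :=
  sInf {n | ∃ l : List G, l.length = n ∧ (∀ s ∈ l, s ∈ S) ∧ l.prod = x⁻¹ * y}

/-- A Banach metric: an integer valued, left invariant, proper metric, quasi-isometric (by the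
identity map) to a Cayley metric, all of whose boundary functionals are unbounded. -/
structure IsBanachMetric {G : Type*} [Group G] (d : G → G → ℝ) : Prop
    extends IsProperIntegerMetric d where
  quasi_isometric : ∃ S : Set G, S.Finite ∧ (∀ s ∈ S, s⁻¹ ∈ S) ∧ Subgroup.closure S = ⊤ ∧
    ∃ A B : ℝ, 0 < A ∧ 0 ≤ B ∧ ∀ x y, A⁻¹ * wordDist S x y - B ≤ d x y ∧
      d x y ≤ A * wordDist S x y + B
  unbounded : UnboundedFunctionals d

/-- A group is virtually cyclic if it has a cyclic subgroup of finite index. -/
def VirtuallyCyclic (G : Type*) [Group G] : Prop :=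
  ∃ C : Subgroup G, IsCyclic C ∧ C.FiniteIndex

/-- A group is locally finite if every finite subset generates a finite subgroup. -/
def IsLocallyFinite (G : Type*) [Group G] : Prop :=
  ∀ S : Set G, S.Finite → ((Subgroup.closure S : Subgroup G) : Set G).Finite

end Pool.Agent.Y138.Ban
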