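import Pool.Agent.Y138.Ban.Metric

set_option autoImplicit false

/-!
Examples: metrics with small boundary on locally finite groups and on virtually cyclic groups.
-/

namespace Pool.Agent.Y138.Ban

open Filter Topology Pool.Agent.H602R3.BanachCore

variable {G : Type*} [Group G]

/-- A countable locally finite group has a proper integer metric whose boundary has at most one
point. -/
theorem exists_metric_of_locallyFinite [Countable G] (hlf : IsLocallyFinite G) :
    ∃ d : G → G → ℝ, IsProperIntegerMetric d ∧ boundary d ⊆ {fun _ => 0} := by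
  classical
  obtain ⟨e, he⟩ := exists_surjective_nat G
  let L : ℕ → Subgroup G := fun n => Subgroup.closure (e '' (Set.Iio n))
  have hLmono : Monotone L := fun m n hmn =>
    Subgroup.closure_mono (Set.image_mono (Set.Iio_subset_Iio hmn))
  have hLfin : ∀ n, ((L n : Subgroup G) : Set G).Finite := fun n =>
    hlf _ ((Set.finite_Iio n).image e)
  have hex : ∀ g : G, ∃ n, g ∈ L n := by
    intro g
    obtain ⟨k, rfl⟩ := he g
    exact ⟨k + 1, Subgroup.subset_closure ⟨k, Nat.lt_succ_self k, rfl⟩⟩
  let lev : G → ℕ := fun g => Nat.find (hex g)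
  have hlev : ∀ g, g ∈ L (lev g) := fun g => Nat.find_spec (hex g)
  have hlev_le : ∀ g n, g ∈ L n → lev g ≤ n := fun g n h => Nat.find_min' (hex g) h
  have hmul : ∀ g h, lev (g * h) ≤ max (lev g) (lev h) := by
    intro g h
    apply hlev_le
    exact mul_mem (hLmono (le_max_left _ _) (hlev g)) (hLmono (le_max_right _ _) (hlev h))
  have hinv : ∀ g, lev g⁻¹ = lev g := by
    intro g
    apply le_antisymm
    · exact hlev_le _ _ (inv_mem (hlev g))
    · apply hlev_le
      have := inv_mem (hlev g⁻¹)
      rwa [inv_inv] at this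
  have hone : lev 1 = 0 := Nat.le_zero.1 (hlev_le _ _ (one_mem _))
  have hzero : ∀ g, lev g = 0 → g = 1 := by
    intro g hg
    have h1 := hlev g
    rw [hg] at h1
    have h2 : L 0 = ⊥ := by
      simp only [L]
      rw [show (Set.Iio 0 : Set ℕ) = ∅ from by ext; simp]
      simp
    rw [h2] at h1
    exact Subgroup.mem_bot.1 h1
  let N : G → ℤ := fun g => (lev g : ℤ)
  have hN : IsNorm N := by
    refine ⟨fun g => Int.natCast_nonneg _, fun g => ?_, fun g h => ?_, fun r => ?_⟩
    · simp only [N, hinv]
    · have h1 := hmul g h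
      have h2 : max (lev g) (lev h) ≤ lev g + lev h := max_le (by omega) (by omega)
      simp only [N]
      exact_mod_cast h1.trans h2
    · refine (hLfin r.toNat).subset fun g hg => ?_
      simp only [Set.mem_ofPred_eq, N] at hg
      have h1 : lev g ≤ r.toNat := by omega
      exact hLmono h1 (hlev g)
  have hfar : ∀ u y, lev y < lev u → lev (u * y) = lev u := by
    intro u y h
    apply le_antisymm
    · have := hmul u y
      rwa [max_eq_left h.le] at this
    · have h1 := hmul (u * y) y⁻¹
      rw [mul_inv_cancel_right, hinv] at h1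
      rcases le_max_iff.1 h1 with h2 | h2
      · exact h2
      · omega
  refine ⟨fun x y : G => (N (x⁻¹ * y) : ℝ),
    isProperIntegerMetric_of_norm hN (by simp [N, hone]) (fun g hg => hzero g (by
      simpa [N] using hg)), fun f hf => ?_⟩
  obtain ⟨u, hu1, hu2⟩ := boundary_norm hf
  rw [Set.mem_singleton_iff]
  funext y
  have h1 := hu2 y
  refine tendsto_nhds_unique h1 (tendsto_const_nhds.congr' ?_)
  filter_upwards [hu1.eventually_gt_atTop ((lev y : ℕ) : ℝ)] with n hn
  have h2 : lev y < lev (u n) := by
    have : ((lev y : ℕ) : ℝ) < ((lev (u n) : ℕ) : ℝ) := by simpa [N] using hn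
    exact_mod_cast this
  simp only [N, hfar _ _ h2, sub_self]

/-- Boundary of the cocycle metric. -/
theorem boundary_nrm (t : G) (hinf : ¬ IsOfFinOrder t) (hnorm : (Subgroup.zpowers t).Normal)
    [Fintype (G ⧸ Subgroup.zpowers t)] {f : G → ℝ}
    (hf : f ∈ boundary (fun x y : G => (nrm t hnorm (x⁻¹ * y) : ℝ))) :
    f = (fun y => (coc t hnorm y : ℝ)) ∨ f = (fun y => -(coc t hnorm y : ℝ)) := by
  classical
  obtain ⟨u, hu1, hu2⟩ := boundary_norm hf
  have hN := isNorm_nrm t hinf hnorm
  -- integrality of each value
  have hev : ∀ y : G, ∀ᶠ n in atTop, nrm t hnorm y + nrm t hnorm t + 1 < nrm t hnorm (u n) := by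
    intro y
    filter_upwards [hu1.eventually_gt_atTop ((nrm t hnorm y + nrm t hnorm t + 1 : ℤ) : ℝ)]
      with n hn
    exact_mod_cast hn
  have hq : (0 : ℝ) < (Fintype.card (G ⧸ Subgroup.zpowers t) : ℝ) := by
    have : 0 < Fintype.card (G ⧸ Subgroup.zpowers t) := Fintype.card_pos
    exact_mod_cast this
  have hct : (coc t hnorm t : ℝ) = Fintype.card (G ⧸ Subgroup.zpowers t) := by
    have := coc_zpow t hinf hnorm 1
    rw [zpow_one] at this
    rw [this]; push_cast; ring
  -- relation `f y * q = f t * coc y`
  have hrel : ∀ y, f y * (coc t hnorm t : ℝ) = f t * (coc t hnorm y : ℝ) := by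
    intro y
    refine tendsto_nhds_unique ((hu2 y).mul_const _) (((hu2 t).mul_const _).congr' ?_)
    filter_upwards [hev y] with n hn
    obtain ⟨s, -, hs⟩ := nrm_diff t hinf hnorm (R := nrm t hnorm y + nrm t hnorm t) hn
      (add_nonneg (hN.nonneg _) (hN.nonneg _))
    have e1 := hs y (by linarith [hN.nonneg t])
    have e2 := hs t (by linarith [hN.nonneg y])
    have e1' : (nrm t hnorm (u n * y) : ℝ) - nrm t hnorm (u n) = s * coc t hnorm y := by
      exact_mod_cast e1
    have e2' : (nrm t hnorm (u n * t) : ℝ) - nrm t hnorm (u n) = s * coc t hnorm t := by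
      exact_mod_cast e2
    rw [e1', e2']
    ring
  have hsq : f t * f t = (coc t hnorm t : ℝ) * coc t hnorm t := by
    refine tendsto_nhds_unique ((hu2 t).mul (hu2 t)) (tendsto_const_nhds.congr' ?_)
    filter_upwards [hev 1] with n hn
    obtain ⟨s, hs1, hs⟩ := nrm_diff t hinf hnorm (R := nrm t hnorm 1 + nrm t hnorm t) hn
      (add_nonneg (hN.nonneg _) (hN.nonneg _))
    have e2 := hs t (by linarith [hN.nonneg (1 : G)])
    have e2' : (nrm t hnorm (u n * t) : ℝ) - nrm t hnorm (u n) = s * coc t hnorm t := by
      exact_mod_cast e2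
    rw [e2']
    rcases hs1 with h | h <;> rw [h] <;> push_cast <;> ring
  rcases mul_self_eq_mul_self_iff.1 hsq with h | h
  · left
    funext y
    have h1 := hrel y
    rw [h, mul_comm (coc t hnorm t : ℝ)] at h1
    exact mul_right_cancel₀ (by rw [hct]; exact hq.ne') h1
  · right
    funext y
    have h1 := hrel y
    rw [h] at h1
    have h2 : f y * (coc t hnorm t : ℝ) = (-(coc t hnorm y : ℝ)) * coc t hnorm t := by
      rw [h1]; ring
    exact mul_right_cancel₀ (by rw [hct]; exact hq.ne') h2

theorem unbounded_coc (t : G) (hinf : ¬ IsOfFinOrder t) (hnorm : (Subgroup.zpowers t).Normal)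
    [Fintype (G ⧸ Subgroup.zpowers t)] (M : ℝ) : ∃ y, M < |(coc t hnorm y : ℝ)| := by
  obtain ⟨n, hn⟩ := exists_nat_gt M
  refine ⟨t ^ (n : ℤ), ?_⟩
  rw [coc_zpow t hinf]
  have h1 : (1 : ℝ) ≤ (Fintype.card (G ⧸ Subgroup.zpowers t) : ℝ) := by
    have : 0 < Fintype.card (G ⧸ Subgroup.zpowers t) := Fintype.card_pos
    exact_mod_cast this
  push_cast
  rw [abs_of_nonneg (by positivity)]
  have h2 : (n : ℝ) ≤ n * (Fintype.card (G ⧸ Subgroup.zpowers t) : ℝ) :=
    le_mul_of_one_le_right (Nat.cast_nonneg n) h1
  linarith

/-- norms of products of lists -/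
theorem nrm_list_prod {N : G → ℤ} (hN : IsNorm N) (h1 : N 1 = 0) {R : ℤ} (l : List G)
    (hl : ∀ s ∈ l, N s ≤ R) : N l.prod ≤ R * l.length := by
  induction l with
  | nil => simp [h1]
  | cons a l ih =>
    have h2 := hN.mul_le a l.prod
    have h3 := hl a (by simp)
    have h4 := ih (fun s hs => hl s (by simp [hs]))
    rw [List.prod_cons, List.length_cons]
    push_cast
    linarith

/-- A virtually cyclic group has a Banach metric whose boundary has at most two points. -/
theorem exists_banach_of_virtuallyCyclic (hG : VirtuallyCyclic G) :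
    ∃ d : G → G → ℝ, IsBanachMetric d ∧ ∃ β : G → ℝ, boundary d ⊆ {β, -β} := by
  classical
  by_cases hfinG : Finite G
  · -- the discrete metric
    let N : G → ℤ := fun g => if g = 1 then 0 else 1
    have hN : IsNorm N := by
      refine ⟨fun g => ?_, fun g => ?_, fun g h => ?_, fun r => Set.toFinite _⟩
      · simp only [N]; split_ifs <;> omega
      · simp [N]
      · by_cases hg : g = 1
        · subst hg; simp [N]
        · simp only [N, if_neg hg]
          split_ifs <;> omega
    have hle : ∀ g, N g ≤ 1 := by
      intro g; simp only [N]; split_ifs <;> omega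
    have hempty : ∀ f, f ∉ boundary (fun x y : G => (N (x⁻¹ * y) : ℝ)) := by
      intro f hf
      obtain ⟨u, hu, -⟩ := boundary_norm hf
      obtain ⟨n, hn⟩ := (hu.eventually_gt_atTop 1).exists
      have : (N (u n) : ℝ) ≤ 1 := by exact_mod_cast hle (u n)
      linarith
    refine ⟨fun x y : G => (N (x⁻¹ * y) : ℝ), ?_, 0, fun f hf => absurd hf (hempty f)⟩
    have hm := isProperIntegerMetric_of_norm hN (by simp [N]) (fun g hg => by
      by_contra h
      simp only [N, if_neg h] at hg
      omega)
    refine { hm with
      quasi_isometric := ⟨Set.univ, Set.toFinite _, fun _ _ => Set.mem_univ _, ?_, 1, 1,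
        one_pos, zero_le_one, fun x y => ⟨?_, ?_⟩⟩
      unbounded := fun f hf => absurd hf (hempty f) }
    · simp
    · have h1 : wordDist (Set.univ : Set G) x y ≤ 1 :=
        Nat.sInf_le ⟨[x⁻¹ * y], by simp, fun _ _ => Set.mem_univ _, by simp⟩
      have h2 : (wordDist (Set.univ : Set G) x y : ℝ) ≤ 1 := by exact_mod_cast h1
      have h3 : (0 : ℝ) ≤ N (x⁻¹ * y) := by exact_mod_cast hN.nonneg _
      linarith
    · have h3 : (N (x⁻¹ * y) : ℝ) ≤ 1 := by exact_mod_cast hle _
      have h4 : (0 : ℝ) ≤ (wordDist (Set.univ : Set G) x y : ℝ) := Nat.cast_nonneg _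
      linarith
  · have hGi : Infinite G := not_finite_iff_infinite.1 hfinG
    obtain ⟨C, hC, hCfi⟩ := hG
    have hKfi : (C.normalCore).FiniteIndex := inferInstance
    have hle : C.normalCore ≤ C := Subgroup.normalCore_le C
    have hKc : IsCyclic C.normalCore :=
      isCyclic_of_injective (Subgroup.inclusion hle) (Subgroup.inclusion_injective hle)
    obtain ⟨⟨t, htK⟩, ht⟩ := hKc.exists_generator
    have hz : Subgroup.zpowers t = C.normalCore := by
      apply le_antisymm
      · rw [Subgroup.zpowers_le]; exact htK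
      · intro g hg
        obtain ⟨n, hn⟩ := Subgroup.mem_zpowers_iff.1 (ht ⟨g, hg⟩)
        refine Subgroup.mem_zpowers_iff.2 ⟨n, ?_⟩
        have := congrArg Subtype.val hn
        simpa using this
    have hnorm : (Subgroup.zpowers t).Normal := by rw [hz]; infer_instance
    have hfi : (Subgroup.zpowers t).FiniteIndex := by rw [hz]; exact hKfi
    have hinf : ¬ IsOfFinOrder t := by
      intro h
      have h1 : Finite (Subgroup.zpowers t) := (finite_zpowers.2 h).to_subtype
      have h2 : Finite (G ⧸ Subgroup.zpowers t) := Subgroup.finite_quotient_of_finiteIndex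
      exact hfinG (Finite.of_equiv _
        (Subgroup.groupEquivQuotientProdSubgroup (s := Subgroup.zpowers t)).symm)
    have hfq : Finite (G ⧸ Subgroup.zpowers t) := Subgroup.finite_quotient_of_finiteIndex
    let _ : Fintype (G ⧸ Subgroup.zpowers t) := Fintype.ofFinite _
    have hN := isNorm_nrm t hinf hnorm
    have hN1 := nrm_one t hinf hnorm
    have hm := isProperIntegerMetric_of_norm hN hN1 (fun g hg => nrm_eq_zero t hnorm hg)
    refine ⟨fun x y : G => (nrm t hnorm (x⁻¹ * y) : ℝ), ?_, fun y => (coc t hnorm y : ℝ),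
      fun f hf => ?_⟩
    · -- Banach
      obtain ⟨M, hM⟩ := (Set.finite_range (fun x : G ⧸ Subgroup.zpowers t =>
        nrm t hnorm (rep t x))).bddAbove
      let R : ℤ := |M| + nrm t hnorm t + 1
      have hR1 : 1 ≤ R := by
        have := abs_nonneg M
        have := hN.nonneg t
        simp only [R]; omega
      have hRM : ∀ x : G ⧸ Subgroup.zpowers t, nrm t hnorm (rep t x) ≤ R := by
        intro x
        have h1 : nrm t hnorm (rep t x) ≤ M := hM ⟨x, rfl⟩
        have h2 := le_abs_self M
        have := hN.nonneg t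
        simp only [R]; omega
      have hRt : nrm t hnorm t ≤ R := by
        have := abs_nonneg M
        simp only [R]; omega
      let S : Set G := {g | nrm t hnorm g ≤ R}
      -- short words
      have hword : ∀ g : G, ∃ l : List G, (∀ s ∈ l, s ∈ S) ∧ l.prod = g ∧
          (l.length : ℤ) ≤ nrm t hnorm g + R + 1 := by
        intro g
        obtain ⟨n, hn⟩ := exists_rep_mul t g
        have h1 := abs_pow_le t hinf hnorm (QuotientGroup.mk g) n
        rw [← hn] at h1
        have h2 := hRM (QuotientGroup.mk g)
        rcases Int.natAbs_eq n with h | h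
        · refine ⟨rep t (QuotientGroup.mk g) :: List.replicate n.natAbs t, ?_, ?_, ?_⟩
          · intro s hs
            rcases List.mem_cons.1 hs with h3 | h3
            · rw [h3]; exact h2
            · rw [List.eq_of_mem_replicate h3]; exact hRt
          · rw [List.prod_cons, List.prod_replicate, ← zpow_natCast, ← h]
            exact hn.symm
          · rw [List.length_cons, List.length_replicate]
            push_cast
            linarith
        · refine ⟨rep t (QuotientGroup.mk g) :: List.replicate n.natAbs t⁻¹, ?_, ?_, ?_⟩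
          · intro s hs
            rcases List.mem_cons.1 hs with h3 | h3
            · rw [h3]; exact h2
            · rw [List.eq_of_mem_replicate h3]
              simp only [S, Set.mem_ofPred_eq]
              rw [hN.inv]; exact hRt
          · rw [List.prod_cons, List.prod_replicate, inv_pow, ← zpow_natCast, ← zpow_neg, ← h]
            exact hn.symm
          · rw [List.length_cons, List.length_replicate]
            push_cast
            linarith
      refine { hm with
        quasi_isometric := ⟨S, hN.proper R, fun s hs => ?_, ?_, R, R + 1, ?_, ?_,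
          fun x y => ⟨?_, ?_⟩⟩
        unbounded := ?_ }
      · simp only [S, Set.mem_ofPred_eq] at hs ⊢
        rw [hN.inv]; exact hs
      · rw [eq_top_iff]
        intro g _
        obtain ⟨l, hl1, hl2, -⟩ := hword g
        rw [← hl2]
        exact Subgroup.list_prod_mem _ fun s hs => Subgroup.subset_closure (hl1 s hs)
      · have : (1 : ℝ) ≤ R := by exact_mod_cast hR1
        linarith
      · have : (1 : ℝ) ≤ R := by exact_mod_cast hR1
        linarith
      · obtain ⟨l, hl1, hl2, hl3⟩ := hword (x⁻¹ * y)
        have h1 : wordDist S x y ≤ l.length := Nat.sInf_le ⟨l, rfl, hl1, hl2⟩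
        have h2 : (wordDist S x y : ℝ) ≤ nrm t hnorm (x⁻¹ * y) + R + 1 := by
          have : (wordDist S x y : ℤ) ≤ nrm t hnorm (x⁻¹ * y) + R + 1 :=
            (Int.ofNat_le.2 h1).trans hl3
          exact_mod_cast this
        have hR' : (1 : ℝ) ≤ R := by exact_mod_cast hR1
        have h3 : (R : ℝ)⁻¹ * wordDist S x y ≤ wordDist S x y := by
          have h4 : (R : ℝ)⁻¹ ≤ 1 := inv_le_one_of_one_le₀ hR'
          exact mul_le_of_le_one_left (Nat.cast_nonneg _) h4
        linarith
      · obtain ⟨l0, hl1, hl2, -⟩ := hword (x⁻¹ * y)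
        have hmem : wordDist S x y ∈ {n | ∃ l : List G, l.length = n ∧ (∀ s ∈ l, s ∈ S) ∧
            l.prod = x⁻¹ * y} := Nat.sInf_mem ⟨l0.length, l0, rfl, hl1, hl2⟩
        obtain ⟨l, h1, h2, h3⟩ := hmem
        have h4 := nrm_list_prod hN hN1 l h2
        rw [h3, h1] at h4
        have h5 : (nrm t hnorm (x⁻¹ * y) : ℝ) ≤ R * wordDist S x y := by exact_mod_cast h4
        have hR' : (1 : ℝ) ≤ R := by exact_mod_cast hR1
        linarith
      · intro f hf
        rintro ⟨M', hM'⟩
        obtain ⟨y, hy⟩ := unbounded_coc t hinf hnorm M'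
        have h1 := hM' y
        rcases boundary_nrm t hinf hnorm hf with h | h
        · rw [h] at h1; linarith
        · rw [h] at h1
          simp only [abs_neg] at h1
          linarith
    · rcases boundary_nrm t hinf hnorm hf with h | h
      · left; exact h
      · right; exact h

end Pool.Agent.Y138.Ban
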