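import Pool.Agent.Y138.Ban.Defs
import Pool.Agent.Y138.Ban.Core
import Pool.Agent.Y138.Ban.Cocycle

set_option autoImplicit false

/-!
From metrics to norms and back.
-/

namespace Pool.Agent.Y138.Ban

open Filter Topology Pool.Agent.H602R3.BanachCore

variable {G : Type*} [Group G]

theorem exists_norm {d : G → G → ℝ} (hd : IsProperIntegerMetric d) :
    ∃ N : G → ℤ, IsNorm N ∧ (∀ x y : G, d x y = N (x⁻¹ * y)) := by
  have hint : ∀ g : G, ∃ n : ℤ, d 1 g = n := fun g => hd.integer 1 g
  choose N hN using hint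
  have hdN : ∀ x y : G, d x y = N (x⁻¹ * y) := by
    intro x y
    rw [← hN, ← hd.left_invariant x⁻¹ x y, inv_mul_cancel]
  refine ⟨N, ⟨fun g => ?_, fun g => ?_, fun g h => ?_, fun r => ?_⟩, hdN⟩
  · have h1 := hd.triangle 1 g 1
    rw [hd.dist_self, hd.symm g 1, hN] at h1
    have : (0 : ℝ) ≤ N g := by linarith
    exact_mod_cast this
  · have : (N g⁻¹ : ℝ) = N g := by
      rw [← hN, ← hN, ← hd.left_invariant g 1 g⁻¹, mul_one, mul_inv_cancel, hd.symm]
    exact_mod_cast this
  · have h1 := hd.triangle 1 g (g * h)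
    rw [hdN g (g * h), inv_mul_cancel_left, hN, hN] at h1
    exact_mod_cast h1
  · refine (hd.proper 1 r).subset fun g hg => ?_
    simp only [Set.mem_ofPred_eq] at hg ⊢
    rw [hN]
    exact_mod_cast hg

theorem countable_of_norm {N : G → ℤ} (hN : IsNorm N) : Countable G := by
  have hU : (Set.univ : Set G) = ⋃ n : ℕ, {g | N g ≤ (n : ℤ)} := by
    symm
    apply Set.eq_univ_of_forall
    intro g
    exact Set.mem_iUnion.2 ⟨(N g).toNat, Int.self_le_toNat _⟩
  rw [← Set.countable_univ_iff, hU]
  exact Set.countable_iUnion fun n => (hN.proper (n : ℤ)).countable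

/-- every limit function of the norm is a boundary functional of the metric -/
theorem limF_mem_boundary {d : G → G → ℝ} {N : G → ℤ} (hN : IsNorm N)
    (hdN : ∀ x y : G, d x y = N (x⁻¹ * y)) {f : G → ℤ} (hf : f ∈ LimF N) :
    (fun y => (f y : ℝ)) ∈ boundary d := by
  classical
  have hc := countable_of_norm hN
  obtain ⟨e, he⟩ := exists_surjective_nat G
  have hex : ∀ n : ℕ, ∃ u : G, (n : ℤ) ≤ N u ∧
      ∀ y ∈ (Finset.range (n + 1)).image e, N (u * y) - N u = f y := by
    intro n
    have h1 := hf ((Finset.range (n + 1)).image e)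
    obtain ⟨u, hu, hu2⟩ := (h1.sdiff (hN.proper (n : ℤ))).nonempty
    refine ⟨u, ?_, hu⟩
    simp only [Set.mem_ofPred_eq, not_le] at hu2
    exact hu2.le
  choose u hu1 hu2 using hex
  refine ⟨fun n => (u n)⁻¹, ?_, fun y => ?_⟩
  · have : ∀ n, d (u n)⁻¹ 1 = N (u n) := by
      intro n
      rw [hdN, inv_inv, mul_one]
    simp only [this]
    refine tendsto_atTop_mono (fun n => ?_) tendsto_natCast_atTop_atTop
    exact_mod_cast hu1 n
  · obtain ⟨k, rfl⟩ := he y
    refine tendsto_const_nhds.congr' ?_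
    filter_upwards [eventually_ge_atTop k] with n hn
    have h3 := hu2 n (e k) (Finset.mem_image_of_mem _ (Finset.mem_range.2 (by omega)))
    simp only [b, hdN, inv_inv, mul_one]
    rw [← h3]
    push_cast
    rfl

omit [Group G] in
theorem emb_injective : Function.Injective (fun (f : G → ℤ) (y : G) => (f y : ℝ)) := by
  intro f g hfg
  funext y
  have := congrFun hfg y
  simpa using this

theorem finite_limF {d : G → G → ℝ} {N : G → ℤ} (hN : IsNorm N)
    (hdN : ∀ x y : G, d x y = N (x⁻¹ * y)) (hfin : (boundary d).Finite) : (LimF N).Finite := by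
  refine Set.Finite.of_finite_image (f := fun (f : G → ℤ) (y : G) => (f y : ℝ))
    (hfin.subset ?_) emb_injective.injOn
  rintro _ ⟨f, hf, rfl⟩
  exact limF_mem_boundary hN hdN hf

theorem subsingleton_limF {d : G → G → ℝ} {N : G → ℤ} (hN : IsNorm N)
    (hdN : ∀ x y : G, d x y = N (x⁻¹ * y)) (hsub : (boundary d).Subsingleton) :
    (LimF N).Subsingleton := by
  intro f hf g hg
  exact emb_injective (hsub (limF_mem_boundary hN hdN hf) (limF_mem_boundary hN hdN hg))

/-- **Dichotomy.** -/
theorem dichotomy_metric {d : G → G → ℝ} (hd : IsProperIntegerMetric d)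
    (hfin : (boundary d).Finite) :
    VirtuallyCyclic G ∨ (Countable G ∧ IsLocallyFinite G) := by
  obtain ⟨N, hN, hdN⟩ := exists_norm hd
  have hL := finite_limF hN hdN hfin
  rcases dichotomy hN hL with h | ⟨h1, -⟩
  · exact Or.inl h
  · refine Or.inr ⟨countable_of_norm hN, fun S hS => ?_⟩
    have := h1 hS.toFinset
    simpa using this

theorem virtuallyCyclic_of_finite_group (h : Finite G) : VirtuallyCyclic G :=
  ⟨⊥, inferInstance, inferInstance⟩

/-- **Finite boundary and unbounded functionals force a virtually cyclic group.** -/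
theorem virtuallyCyclic_of_unbounded {d : G → G → ℝ} (hd : IsProperIntegerMetric d)
    (hunb : UnboundedFunctionals d) (hfin : (boundary d).Finite) : VirtuallyCyclic G := by
  by_cases hG : Finite G
  · exact virtuallyCyclic_of_finite_group hG
  have hGi : Infinite G := not_finite_iff_infinite.1 hG
  obtain ⟨N, hN, hdN⟩ := exists_norm hd
  have hL := finite_limF hN hdN hfin
  rcases dichotomy hN hL with h | ⟨-, h2⟩
  · exact h
  · exfalso
    obtain ⟨g, hg, -⟩ := exists_limit hN Set.univ Set.infinite_univ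
    obtain ⟨M, hM⟩ := h2 g hg
    refine hunb _ (limF_mem_boundary hN hdN hg) ⟨M, fun y => ?_⟩
    have := hM y
    exact_mod_cast this

/-- **A boundary with at most one point forces a locally finite group.** -/
theorem locallyFinite_of_subsingleton {d : G → G → ℝ} (hd : IsProperIntegerMetric d)
    (hsub : (boundary d).Subsingleton) : Countable G ∧ IsLocallyFinite G := by
  obtain ⟨N, hN, hdN⟩ := exists_norm hd
  have hL := subsingleton_limF hN hdN hsub
  refine ⟨countable_of_norm hN, fun S hS => ?_⟩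
  have := locallyFinite_of_torsion hN hL.finite (fun t _ => torsion_of_subsingleton hN hL t)
    hS.toFinset
  simpa using this

/-- the metric of a norm -/
theorem isProperIntegerMetric_of_norm {N : G → ℤ} (hN : IsNorm N) (h1 : N 1 = 0)
    (h0 : ∀ g, N g = 0 → g = 1) :
    IsProperIntegerMetric (fun x y : G => (N (x⁻¹ * y) : ℝ)) := by
  refine ⟨fun x => ?_, fun x y h => ?_, fun x y => ?_, fun x y z => ?_, fun x y => ?_,
    fun g x y => ?_, fun x r => ?_⟩
  · simp [h1]
  · have h2 : N (x⁻¹ * y) = 0 := by exact_mod_cast h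
    have h3 := h0 _ h2
    exact (inv_mul_eq_one.1 h3)
  · have h2 : N (y⁻¹ * x) = N (x⁻¹ * y) := by
      rw [← hN.inv]; congr 1; group
    simp only [h2]
  · have h2 := hN.mul_le (x⁻¹ * y) (y⁻¹ * z)
    have h3 : x⁻¹ * y * (y⁻¹ * z) = x⁻¹ * z := by group
    rw [h3] at h2
    exact_mod_cast h2
  · exact ⟨_, rfl⟩
  · have h2 : (g * x)⁻¹ * (g * y) = x⁻¹ * y := by group
    simp only [h2]
  · have h2 := (hN.proper ⌊r⌋).image (fun g => x * g)
    refine h2.subset fun y hy => ?_
    refine ⟨x⁻¹ * y, ?_, by simp⟩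
    simp only [Set.mem_ofPred_eq] at hy ⊢
    exact Int.le_floor.2 hy

/-- the boundary of the metric of a norm -/
theorem boundary_norm {N : G → ℤ} {f : G → ℝ}
    (hf : f ∈ boundary (fun x y : G => (N (x⁻¹ * y) : ℝ))) :
    ∃ u : ℕ → G, Tendsto (fun n => (N (u n) : ℝ)) atTop atTop ∧
      ∀ y, Tendsto (fun n => ((N (u n * y) : ℝ) - N (u n))) atTop (𝓝 (f y)) := by
  obtain ⟨x, hx1, hx2⟩ := hf
  refine ⟨fun n => (x n)⁻¹, ?_, fun y => ?_⟩
  · simpa using hx1
  · have := hx2 y
    simpa [b] using this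

end Pool.Agent.Y138.Ban
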